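import Mathlib
import Pool.Agent.K7.H38.MD.Norm

/-!
# Project EX: all normal extremals of `∂²/∂x₁∂x₂` on `B(K₂)` (MP_7ba380_an, Q2)

Library: `Pool.Agent.K7.H38.MD` (`B`, `SpecDisc`, `T`, `U`, `line`, `vp`, `vm`, `hs`, `a = π/2`,
`cw w = cos √(w + a²)`, `sw w = sin √(w + a²) / √(w + a²)`, `fs`, `T_lines`, `growth_p`, `growth_m`,
`U_le`) and `Pool.Agent.Helper797.Bs` (`residue_sum`, `sin_lower`, `snc`, `ev`, `pl_bound`, …).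
-/

set_option autoImplicit false

open Complex Filter Topology Metric Set
open Pool.Agent.Helper797.Bs Pool.Agent.K7.H38.MD

namespace Pool.Agent.T9h72.EX

/-- `ω(z) = sin √(z² + a²) / √(z² + a²)`, entire, of exponential type 1 -/
noncomputable def om (z : ℂ) : ℂ := sw (z ^ 2)

/-- the nodes `t_k = √((k+1)² π² - π²/4)`, `k = 0, 1, …`; the zeros of `ω` are `± t_k` -/
noncomputable def nod (k : ℕ) : ℝ := √(((k + 1 : ℝ) * Real.pi) ^ 2 - (Real.pi / 2) ^ 2)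

/-- the weights `c_k = (4/π) ((k+1) π)² / t_k⁴` -/
noncomputable def cf (k : ℕ) : ℝ := 4 / Real.pi * ((k + 1 : ℝ) * Real.pi) ^ 2 / nod k ^ 4

/-- `M exp |Im z|` growth -/
def Gr (M : ℝ) (G : ℂ → ℂ) : Prop := Differentiable ℂ G ∧ ∀ z, ‖G z‖ ≤ M * Real.exp |z.im|

/-- JOB NODE.  At a node `√(t² + a²) = (k+1) π`, so `ω(± t) = 0` and
`ω'(t) = t cos((k+1)π) / ((k+1)π)² = - (-1)^k t/((k+1)π)²`; these are all the zeros of `ω`. -/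
def S_NODE : Prop :=
  (∀ k, 0 < nod k) ∧
  (∀ z : ℂ, om z = 0 ↔ ∃ k : ℕ, z = (nod k : ℂ) ∨ z = -(nod k : ℂ)) ∧
  (∀ k : ℕ, HasDerivAt om (-((-1) ^ k * (nod k : ℂ) / (((k : ℂ) + 1) * Real.pi) ^ 2)) (nod k : ℂ)) ∧
  (∀ k : ℕ, HasDerivAt om ((-1) ^ k * (nod k : ℂ) / (((k : ℂ) + 1) * Real.pi) ^ 2) (-(nod k : ℂ))) ∧
  om 0 = 2 / Real.pi ∧ deriv om 0 = 0 ∧ deriv (deriv om) 0 = -(2 / Real.pi : ℂ) ^ 3

/-- JOB LOW.  Lower bound for `ω` on large circles: on the curves `|√(z²+a²)| = (N + 1/2) π` one has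
`|ω(z)| ≥ e^{|Im s|} / (8 |s|)`, `s = √(z²+a²)` (`sin_lower`), but we want circles `|z| = r_N`: take
`r_N = (N + 1/2) π`; there `|s| = r_N + O(1/N)`, `Im s = Im z + O(1/N)`; redo `sin_lower` with this
small perturbation (or use its proof: `|sin s| ≥ |sinh Im s|`, `|sin s| ≥ |sin Re s|`). -/
def S_LOW : Prop := ∃ c : ℝ, 0 < c ∧ ∃ N0 : ℕ, ∀ N : ℕ, N0 ≤ N → ∀ z : ℂ, ‖z‖ = (N + 1 / 2) * Real.pi →
  c * Real.exp |z.im| ≤ ‖z‖ * ‖om z‖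

/-- JOB QUAD (uses `S_NODE`, `S_LOW`).  Residue theorem for `G z / (z³ ω z)` on `|z| = (N+1/2)π`
(integrand `O(1/|z|²)`).  The residue at `0` is `(G/ω)''(0)/2 = U G / (2 ω(0))` (`ω(0) = 2/π`,
`ω''(0) = -(2/π)³`), at `± t_k`: `G(± t_k)/((± t_k)³ ω'(± t_k)) = -(-1)^k ((k+1)π)² G(± t_k)/t_k⁴`.
To use `residue_sum` (simple poles) at `0`: subtract from `G` the function
`G 0 · A + G' 0 · Bf` with simple comparison functions, e.g. apply it to `(G z - p z)/(z³ ω z)` where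
`p z = (G 0 + G' 0 z) ω z / ω 0` (which has no residues at `± t_k`, `p` is `Gr`, and `G - p = O(z²)` at 0,
so `0` is a simple pole).  Summable since `c_k = O(1/k²)` and `G` is bounded on `ℝ`. -/
def S_QUAD : Prop := ∀ (M : ℝ) (G : ℂ → ℂ), Gr M G →
  HasSum (fun k : ℕ => (-1 : ℂ) ^ k * (cf k : ℂ) * (G (nod k) + G (-(nod k : ℂ)))) (U G)

/-- JOB ZER (uses `S_NODE`, `S_LOW`).  Residues of `E z / (ω z z² (z - w))` on large circles, or: the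
quotient `Q = E/ω` extends to an entire function (simple zeros), `|Q z| ≤ C |z|` on the circles
`|z| = (N+1/2)π`, so by Cauchy's estimate (or the maximum principle) `Q'' = 0`. -/
def S_ZER : Prop := ∀ (M : ℝ) (E : ℂ → ℂ), Gr M E →
  (∀ k, E (nod k) = 0) → (∀ k, E (-(nod k : ℂ)) = 0) → ∃ α β : ℂ, ∀ z, E z = (α * z + β) * om z

/-- JOB ELL. -/
def S_ELL : Prop := ∀ α β : ℝ, (∀ s : ℝ, (α * s + β) ^ 2 ≤ s ^ 2 + (Real.pi / 2) ^ 2) ↔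
  α ^ 2 + (2 * β / Real.pi) ^ 2 ≤ 1

/-- real form of the one-dimensional extremals -/
noncomputable def ext1 (α β s : ℝ) : ℂ :=
  ((-(Real.cos √(s ^ 2 + (Real.pi / 2) ^ 2)) : ℝ) : ℂ) +
    I * (((α * s + β) * (Real.sin √(s ^ 2 + (Real.pi / 2) ^ 2) / √(s ^ 2 + (Real.pi / 2) ^ 2)) : ℝ) : ℂ)

/-- JOB ONE (uses `S_NODE`, `S_QUAD`, `S_ZER`, `S_ELL`).  One-dimensional extremals.
`S_QUAD` for `G` and for `h z = - cw (z²)` (`h(± t_k) = (-1)^k`, `U h = 2/π`): so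
`∑ c_k ((-1)^k G(t_k) + (-1)^k G(-t_k) - 2) = 0` with `c_k > 0` and real parts `≤ 0`; hence
`G(± t_k) = (-1)^k` (norm `≤ 1` and real part `= 1` after multiplication).  Put
`G* z = conj (G (conj z))`, `P = (G + G*)/2`, `R = (G - G*)/(2 i)` (both `Gr 1`, real on `ℝ`).
`P - h` and `R` vanish at the nodes: `P - h = (α z + β) ω`, `R = (α' z + β') ω`.  On `ℝ`, `P² + R² ≤ 1`
and `P(± t_k)² = 1`, so `P` has a local extremum at `± t_k`: `P'(± t_k) = 0 = h'(± t_k)`, so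
`(± α t_k + β) ω'(± t_k) = 0`, `α = β = 0`.  `α', β'` are real (`R` real on `ℝ`); finally
`(α' s + β')² sin² ≤ (s² + a²) sin²` on `ℝ`, hence `(α' s + β')² ≤ s² + a²` (density), `S_ELL`. -/
def S_ONE : Prop := ∀ G : ℂ → ℂ, Gr 1 G → U G = ((2 / Real.pi : ℝ) : ℂ) →
  ∃ α β : ℝ, α ^ 2 + (2 * β / Real.pi) ^ 2 ≤ 1 ∧ ∀ s : ℝ, G s = ext1 α β s

/-- JOB TWO (uses `S_ONE`).  `T f 0 = (U (line F 0 vp) - U (line F 0 vm))/2` (`T_lines`), both `|U| ≤ 2/π`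
(`U_le`), so `U (line F 0 vp) = 2/π` and `U (-line F 0 vm) = 2/π`; apply `S_ONE` to both; the values at
`s = 0` agree (`= f(0) = i β (2/π)`). -/
def S_TWO : Prop := ∀ f ∈ B, (∀ p, ‖f p‖ ≤ 1) → T f 0 = ((2 / Real.pi : ℝ) : ℂ) →
  ∃ α α' β : ℝ, α ^ 2 + (2 * β / Real.pi) ^ 2 ≤ 1 ∧ α' ^ 2 + (2 * β / Real.pi) ^ 2 ≤ 1 ∧
    (∀ s : ℝ, f (s / √2, s / √2) = ext1 α β s) ∧
    (∀ s : ℝ, f (s / √2, -(s / √2)) = -ext1 α' (-β) s)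

/-- JOB CONV.  Converse: by `T_lines` it suffices that `U G = 2/π` for an entire `G` with `G = ext1 α β` on `ℝ`:
`G z = - cw (z²) + i (α z + β) ω z` by the identity theorem; `(cw(z²))''(0) = 2 cw'(0) = -2/π`
(`H_zero`), `cw 0 = 0`, `U (z ω) = 0` (odd), `U ω = ω''(0) + (4/π²) ω(0) = 0` (`S_NODE`). -/
def S_CONV : Prop := ∀ f ∈ B, ∀ α α' β : ℝ,
    (∀ s : ℝ, f (s / √2, s / √2) = ext1 α β s) →
    (∀ s : ℝ, f (s / √2, -(s / √2)) = -ext1 α' (-β) s) → T f 0 = ((2 / Real.pi : ℝ) : ℂ)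

/-- `g_l(x) = (x₁² - x₂²)² (sin(l |x|)/(l |x|))⁴` -/
noncomputable def gl (l : ℝ) (p : ℝ × ℝ) : ℝ :=
  (p.1 ^ 2 - p.2 ^ 2) ^ 2 * (Real.sinc (l * √(p.1 ^ 2 + p.2 ^ 2))) ^ 4

/-- JOB INFB.  `g_l ∈ B`: `F(z) = (z₁² - z₂²)² (ev snc (l² (z₁² + z₂²)))⁴`,
`|snc s| ≤ K e^{|Im s|}`, `|Im √(z₁²+z₂²)| ≤ |Im z|` (`im_bound` with `b = 0`), `4 l ≤ 1`. Bounded:
`|g_l| ≤ l⁻⁴`. -/
def S_INFB : Prop := ∀ l : ℝ, 0 < l → l ≤ 1 / 4 → (fun p : ℝ × ℝ => ((gl l p : ℝ) : ℂ)) ∈ B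

/-- JOB INFN.  `|f_*| ≤ |2 x₁ x₂|/|x|²` and `|g_l| ≤ l⁻⁴ (x₁² - x₂²)²/|x|⁴ = l⁻⁴ (1 - (2x₁x₂/|x|²)²)`, and
`1 - |y| ≥ (1 - y²)/2`. -/
def S_INFN : Prop := ∀ l c : ℝ, 0 < l → |c| ≤ l ^ 4 / 2 → ∀ p : ℝ × ℝ,
  ‖fs p + ((c * gl l p : ℝ) : ℂ)‖ ≤ 1

/-- JOB INFR.  On the diagonals `g_l = 0` and `fs (s/√2, s/√2) = ext1 0 0 s`,
`fs (s/√2, -s/√2) = - ext1 0 0 s` (at `s = 0` both sides are `0`, `cos (π/2) = 0`). -/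
def S_INFR : Prop := ∀ s : ℝ, (∀ l : ℝ, gl l (s / √2, s / √2) = 0 ∧ gl l (s / √2, -(s / √2)) = 0) ∧
  fs (s / √2, s / √2) = ext1 0 0 s ∧ fs (s / √2, -(s / √2)) = -ext1 0 0 s

/-- JOB ADD.  `B` is a complex vector space. -/
def S_ADD : Prop := ∀ f ∈ B, ∀ g ∈ B, ∀ c : ℂ, (fun p => f p + c * g p) ∈ B

/-- JOB MAIN (me): final theorem. -/
def S_MAIN : Prop :=
  (∀ f : ℝ × ℝ → ℂ, (f ∈ B ∧ (∀ p, ‖f p‖ ≤ 1) ∧ T f 0 = ((2 / Real.pi : ℝ) : ℂ)) ↔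
    (f ∈ B ∧ (∀ p, ‖f p‖ ≤ 1) ∧ ∃ α α' β : ℝ,
      α ^ 2 + (2 * β / Real.pi) ^ 2 ≤ 1 ∧ α' ^ 2 + (2 * β / Real.pi) ^ 2 ≤ 1 ∧
      (∀ s : ℝ, f (s / √2, s / √2) = ext1 α β s) ∧
      (∀ s : ℝ, f (s / √2, -(s / √2)) = -ext1 α' (-β) s))) ∧
  (∀ l c : ℝ, 0 < l → l ≤ 1 / 4 → |c| ≤ l ^ 4 / 2 →
    (fun p => fs p + ((c * gl l p : ℝ) : ℂ)) ∈ B ∧
    (∀ p, ‖fs p + ((c * gl l p : ℝ) : ℂ)‖ ≤ 1) ∧
    T (fun p => fs p + ((c * gl l p : ℝ) : ℂ)) 0 = ((2 / Real.pi : ℝ) : ℂ))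

end Pool.Agent.T9h72.EX
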