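import Mathlib
import Pool.Agent.T9h72.EX.Spec

set_option autoImplicit false

open Complex Filter Topology Metric Set
open Pool.Agent.Helper797.Bs Pool.Agent.K7.H38.MD

namespace Pool.Agent.T9h72.EX

theorem main (hT : S_TWO) (hC : S_CONV) (hB : S_INFB) (hN : S_INFN) (hR : S_INFR) (hA : S_ADD) :
    S_MAIN := by
  constructor
  · intro f
    constructor
    · rintro ⟨h1, h2, h3⟩
      exact ⟨h1, h2, hT f h1 h2 h3⟩
    · rintro ⟨h1, h2, α, α', β, -, -, h5, h6⟩
      exact ⟨h1, h2, hC f h1 α α' β h5 h6⟩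
  · intro l c hl hl4 hc
    have h1 : (fun p => fs p + ((c * gl l p : ℝ) : ℂ)) ∈ B := by
      have h := hA fs fs_mem _ (hB l hl hl4) (c : ℂ)
      have e : (fun p => fs p + ((c * gl l p : ℝ) : ℂ)) =
          fun p => fs p + (c : ℂ) * ((gl l p : ℝ) : ℂ) := by
        funext p; push_cast; ring
      rw [e]; exact h
    refine ⟨h1, hN l c hl hc, ?_⟩
    refine hC _ h1 0 0 0 (fun s => ?_) (fun s => ?_)
    · obtain ⟨h2, h3, -⟩ := hR s
      simp only [(h2 l).1, mul_zero, ofReal_zero, add_zero]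
      exact h3
    · obtain ⟨h2, -, h4⟩ := hR s
      simp only [(h2 l).2, mul_zero, ofReal_zero, add_zero, neg_zero]
      exact h4

end Pool.Agent.T9h72.EX
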